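import Pool.Agent.TH280.LS.Stm

set_option autoImplicit false

open MeasureTheory Set
open scoped ENNReal

namespace Pool.Agent.TH807.CL

open Pool.Agent.TH280.LS

/-- product functions: measurability -/
lemma aem_prod {m : ℕ} (f : Fin m → ℝ → ℝ≥0∞) (hf : ∀ i, AEMeasurable (f i)) :
    AEMeasurable (fun y : Fin m → ℝ => ∏ i, f i (y i)) := by
  refine Finset.aemeasurable_fun_prod _ fun i _ => ?_
  exact (hf i).comp_quasiMeasurePreserving
    (Measure.quasiMeasurePreserving_eval (fun _ : Fin m => (volume : Measure ℝ)) i)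

/-- Tonelli for products of functions of the coordinates -/
lemma lint_prod {m : ℕ} (f : Fin m → ℝ → ℝ≥0∞) (hf : ∀ i, AEMeasurable (f i)) :
    ∫⁻ y : Fin m → ℝ, ∏ i, f i (y i) = ∏ i, ∫⁻ x, f i x := by
  induction m with
  | zero => simp [volume_pi]
  | succ n ih =>
    have h := (volume_preserving_piFinSuccAbove (fun _ : Fin (n + 1) => ℝ) 0).symm
    rw [← h.lintegral_comp_emb (MeasurableEquiv.measurableEmbedding _), Fin.prod_univ_succ,
      ← ih (fun i => f i.succ) (fun i => hf _)]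
    rw [← lintegral_prod_mul (hf 0) (aem_prod (fun i => f i.succ) (fun i => hf _))]
    refine lintegral_congr fun z => ?_
    rw [Fin.prod_univ_succ]
    rfl

lemma enorm_re (x : ℝ) : ‖(x : ℂ)‖ₑ = ‖x‖ₑ := by
  rw [← ofReal_norm, ← ofReal_norm, Complex.norm_real]

lemma pm_aem {k : ℕ} {F : ℝ → ℝ} (h : PM k F) : AEMeasurable F := by
  obtain ⟨I, hI, _, hU, hm⟩ := h
  have h1 : AEMeasurable F (volume.restrict (⋃ i, I i)) := by
    rw [aemeasurable_iUnion_iff]
    intro i
    rcases hm i with h | h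
    · exact aemeasurable_restrict_of_monotoneOn (hI i).measurableSet h
    · exact aemeasurable_restrict_of_antitoneOn (hI i).measurableSet h
  rwa [hU, Measure.restrict_univ] at h1

lemma ft_aem {G : ℝ → ℂ} : Measurable (ft G) := by
  by_cases h : Integrable G
  · exact (continuous_ft h).measurable
  · have : ft G = 0 := by
      funext ξ
      unfold ft
      apply integral_undef
      intro h2
      apply h
      have h3 : Integrable (fun x => e (x * ξ) * (e (-(x * ξ)) * G x)) := by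
        refine h2.bdd_mul (c := 1) ?_ ?_
        · exact (measurable_e.comp (measurable_id.mul_const ξ)).aestronglyMeasurable
        · exact Filter.Eventually.of_forall fun v => (norm_e _).le
      refine h3.congr (Filter.Eventually.of_forall fun x => ?_)
      simp only
      rw [← mul_assoc, ← e_add, add_neg_cancel, e_zero, one_mul]
    rw [this]
    exact measurable_zero

lemma ftm_prod (m : ℕ) (b : ℂ) (F : Fin m → ℝ → ℂ) (η : Fin m → ℝ) :
    ftm m (fun y => b * ∏ i, F i (y i)) η = b * ∏ i, ft (F i) (η i) := by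
  unfold ftm ft
  rw [← integral_fintype_prod_volume_eq_prod (fun (i : Fin m) (x : ℝ) => e (-(x * η i)) * F i x),
    ← integral_const_mul]
  refine integral_congr_ae (Filter.Eventually.of_forall fun y => ?_)
  simp only
  rw [Finset.prod_mul_distrib]
  have : e (-(∑ i, y i * η i)) = ∏ i, e (-(y i * η i)) := by
    unfold e
    rw [← Complex.exp_sum, ← Finset.sum_mul, ← Complex.ofReal_sum, ← Finset.mul_sum,
      Finset.sum_neg_distrib]
  rw [this]
  ring

lemma enorm_pr (m : ℕ) (b : ℂ) (z : Fin m → ℂ) {p : ℝ} (hp : 0 ≤ p) :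
    ‖b * ∏ i, z i‖ₑ ^ p = ‖b‖ₑ ^ p * ∏ i, ‖z i‖ₑ ^ p := by
  rw [enorm_mul, ENNReal.mul_rpow_of_nonneg _ _ hp, ENNReal.prod_rpow_of_nonneg hp]
  congr 2
  induction m with
  | zero => simp
  | succ n ih => rw [Fin.prod_univ_succ, Fin.prod_univ_succ, enorm_mul, ih]

theorem cl_thm : S_F → S_CL := by
  intro hF m k p hp
  have hp0 : 0 ≤ p := by linarith
  have hp1 : 0 < p := by linarith
  obtain ⟨C, hC, hCF⟩ := hF k p hp
  refine ⟨C ^ m, by positivity, fun b F hPM hInt => ?_⟩
  have hm : ∀ i, AEMeasurable (F i) := fun i => pm_aem (hPM i)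
  -- the left side
  have hL : ∫⁻ η : Fin m → ℝ, ENNReal.ofReal ((∏ i, |η i|) ^ (p - 2)) *
      ‖ftm m (fun y => b * ∏ i, ((F i (y i) : ℝ) : ℂ)) η‖ₑ ^ p =
      ‖b‖ₑ ^ p * ∏ i, ∫⁻ x : ℝ, ENNReal.ofReal (|x| ^ (p - 2)) *
        ‖ft (fun x => (F i x : ℂ)) x‖ₑ ^ p := by
    have haem : ∀ i, AEMeasurable (fun x : ℝ => ENNReal.ofReal (|x| ^ (p - 2)) *
        ‖ft (fun x => (F i x : ℂ)) x‖ₑ ^ p) := by
      intro i
      apply Measurable.aemeasurable
      have h1 : Measurable (fun x : ℝ => |x| ^ (p - 2)) :=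
        (measurable_id.norm).pow_const _
      exact h1.ennreal_ofReal.mul (ft_aem.enorm.pow_const p)
    rw [← lint_prod _ haem, ← lintegral_const_mul'']
    · refine lintegral_congr fun η => ?_
      rw [ftm_prod m b (fun i x => (F i x : ℂ)) η, enorm_pr m b _ hp0,
        ← Real.finsetProd_rpow _ _ (fun i _ => abs_nonneg _),
        ENNReal.ofReal_prod_of_nonneg (fun i _ => by positivity), Finset.prod_mul_distrib]
      ring
    · exact aem_prod _ haem
  have hR : ∫⁻ y : Fin m → ℝ, ‖b * ∏ i, ((F i (y i) : ℝ) : ℂ)‖ₑ ^ p =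
      ‖b‖ₑ ^ p * ∏ i, ∫⁻ x : ℝ, ‖F i x‖ₑ ^ p := by
    have haem : ∀ i, AEMeasurable (fun x : ℝ => ‖F i x‖ₑ ^ p) :=
      fun i => (hm i).enorm.pow_const p
    rw [← lint_prod _ haem, ← lintegral_const_mul'']
    · refine lintegral_congr fun y => ?_
      rw [enorm_pr m b _ hp0]
      simp only [enorm_re]
    · exact aem_prod _ haem
  rw [hL, hR]
  by_cases hb : b = 0
  · rw [hb, enorm_zero, ENNReal.zero_rpow_of_pos hp1, zero_mul]
    exact zero_le
  by_cases hz : ∃ j, ∫⁻ x, ‖F j x‖ₑ = 0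
  · obtain ⟨j, hj⟩ := hz
    have h1 : (∫⁻ x : ℝ, ENNReal.ofReal (|x| ^ (p - 2)) *
        ‖ft (fun x => (F j x : ℂ)) x‖ₑ ^ p) = 0 := by
      rw [lintegral_eq_zero_iff' (hm j).enorm] at hj
      have h2 : ∀ ξ, ft (fun x => (F j x : ℂ)) ξ = 0 := by
        intro ξ
        unfold ft
        rw [← integral_zero ℝ ℂ]
        apply integral_congr_ae
        filter_upwards [hj] with x hx
        have : F j x = 0 := by simpa using hx
        rw [this]
        simp
      simp [h2, ENNReal.zero_rpow_of_pos hp1]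
    rw [Finset.prod_eq_zero (Finset.mem_univ j) h1, mul_zero]
    exact zero_le
  · push Not at hz
    have hfin : ∏ i, ∫⁻ x, ‖F i x‖ₑ ≠ ∞ := by
      rw [← lint_prod _ (fun i => (hm i).enorm)]
      have h1 := hInt.2
      rw [hasFiniteIntegral_iff_enorm] at h1
      have h2 : ∀ y : Fin m → ℝ, ‖b * ∏ i, ((F i (y i) : ℝ) : ℂ)‖ₑ =
          ‖b‖ₑ * ∏ i, ‖F i (y i)‖ₑ := by
        intro y
        have := enorm_pr m b (fun i => ((F i (y i) : ℝ) : ℂ)) (p := 1) zero_le_one
        simpa only [ENNReal.rpow_one, enorm_re] using this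
      rw [lintegral_congr h2, lintegral_const_mul'' _
        (aem_prod (fun i x => ‖F i x‖ₑ) (fun i => (hm i).enorm))] at h1
      intro h3
      rw [h3, ENNReal.mul_top (by simpa using hb)] at h1
      exact lt_irrefl _ h1
    have hint : ∀ i, Integrable (F i) := by
      intro i
      refine ⟨(hm i).aestronglyMeasurable, ?_⟩
      rw [hasFiniteIntegral_iff_enorm, lt_top_iff_ne_top]
      intro h1
      apply hfin
      rw [← Finset.mul_prod_erase Finset.univ _ (Finset.mem_univ i), h1]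
      apply ENNReal.top_mul
      rw [Finset.prod_ne_zero_iff]
      exact fun j _ => hz j
    have hle : ∏ i, (∫⁻ x : ℝ, ENNReal.ofReal (|x| ^ (p - 2)) *
        ‖ft (fun x => (F i x : ℂ)) x‖ₑ ^ p) ≤
        ∏ i, (ENNReal.ofReal C * ∫⁻ x : ℝ, ‖F i x‖ₑ ^ p) :=
      Finset.prod_le_prod' fun i _ => hCF (F i) (hPM i) (hint i)
    rw [Finset.prod_mul_distrib, Finset.prod_const, Finset.card_univ, Fintype.card_fin] at hle
    rw [ENNReal.ofReal_pow hC.le]
    calc _ ≤ ‖b‖ₑ ^ p * (ENNReal.ofReal C ^ m * ∏ i, ∫⁻ x : ℝ, ‖F i x‖ₑ ^ p) := by gcongr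
      _ = _ := by ring

end Pool.Agent.TH807.CL
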